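import Pool.Agent.Q284.GE.Stm3

/-!
# Project GE, job GAP: the zeros of the symmetrised polynomial are almost equally spaced
-/

set_option autoImplicit false

open Finset Polynomial ComplexConjugate Filter

namespace Pool.Agent.Q223.GE

open Pool.Agent.Q284.GE

theorem bform (D : ℕ) (ε : ℂ) (A b : ℂ[X]) (hD : 1 ≤ D) (hA : ∀ n : ℕ, D ≤ 2 * n → A.coeff n = 0)
    (hU : Uni D ε b) (h1 : ∀ n : ℕ, 2 * n < D → b.coeff n = A.coeff n)
    (h2 : ∀ n : ℕ, 2 * n = D → b.coeff n = 0) (z : ℂ) (hz : ‖z‖ = 1) :
    b.eval z = A.eval z + ε * z ^ D * conj (A.eval z) := by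
  have hAd : A.natDegree < D + 1 := by
    refine Nat.lt_succ_of_le (natDegree_le_iff_coeff_eq_zero.mpr fun n hn => hA n (by omega))
  have hbd : b.natDegree < D + 1 := by rw [hU.deg]; omega
  have hc : ∀ n ∈ range (D + 1), b.coeff n = A.coeff n + ε * conj (A.coeff (D - n)) := by
    intro n hn
    have hn' : n ≤ D := Nat.lt_succ_iff.mp (mem_range.mp hn)
    rcases lt_trichotomy (2 * n) D with h | h | h
    · rw [h1 n h, hA (D - n) (by omega), map_zero, mul_zero, add_zero]
    · rw [h2 n h, hA n (by omega), hA (D - n) (by omega), map_zero, mul_zero, add_zero]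
    · have := hU.fe (D - n) (by omega)
      rw [show D - (D - n) = n by omega] at this
      rw [this, h1 (D - n) (by omega), hA n (by omega), zero_add]
  have hzz : z * conj z = 1 := by
    rw [Complex.mul_conj', hz]; simp
  rw [eval_eq_sum_range' hbd, eval_eq_sum_range' hAd]
  rw [sum_congr rfl fun n hn => by rw [hc n hn]]
  simp only [add_mul, sum_add_distrib, map_sum, map_mul, map_pow, mul_sum]
  congr 1
  rw [← sum_range_reflect]
  refine sum_congr rfl fun n hn => ?_
  have hn' : n ≤ D := Nat.lt_succ_iff.mp (mem_range.mp hn)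
  rw [show D + 1 - 1 - n = D - n by omega, show D - (D - n) = n by omega]
  have : z ^ D * conj z ^ n = z ^ (D - n) := by
    have : z ^ D = z ^ (D - n) * z ^ n := by rw [← pow_add]; congr 1; omega
    rw [this, mul_assoc, ← mul_pow, hzz, one_pow, mul_one]
  calc ε * conj (A.coeff n) * z ^ (D - n) = ε * conj (A.coeff n) * (z ^ D * conj z ^ n) := by rw [this]
    _ = _ := by ring

/-- the exponential -/
noncomputable def E (x : ℝ) : ℂ := Complex.exp (x * Complex.I)

theorem E_norm (x : ℝ) : ‖E x‖ = 1 := Complex.norm_exp_ofReal_mul_I x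

theorem E_deriv (x : ℝ) : HasDerivAt E (E x * Complex.I) x := by
  have h1 : HasDerivAt (fun y : ℝ => ((y : ℂ) * Complex.I)) (Complex.I) x := by
    simpa using (Complex.ofRealCLM.hasDerivAt (x := x)).mul_const Complex.I
  exact h1.cexp

theorem poly_deriv (P : ℂ[X]) (x : ℝ) :
    HasDerivAt (fun y : ℝ => P.eval (E y)) (P.derivative.eval (E x) * (E x * Complex.I)) x :=
  HasDerivAt.comp x (P.hasDerivAt (E x)) (E_deriv x)

theorem E_cont : Continuous E := continuous_iff_continuousAt.mpr fun x => (E_deriv x).continuousAt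

theorem exp_eq_neg_one_iff (t : ℝ) : 1 + Complex.exp (t * Complex.I) = 0 ↔ ∃ k : ℤ, t = Real.pi + 2 * Real.pi * k := by
  have h0 : 1 + Complex.exp (t * Complex.I) = 0 ↔ Complex.exp (t * Complex.I) = Complex.exp (Real.pi * Complex.I) := by
    rw [Complex.exp_pi_mul_I]
    constructor
    · intro h; linear_combination h
    · intro h; linear_combination h
  rw [h0, Complex.exp_eq_exp_iff_exists_int]
  refine exists_congr fun n => ?_
  constructor
  · intro h
    have h2 : (t : ℂ) = Real.pi + 2 * Real.pi * n := by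
      have hI := Complex.I_ne_zero
      apply mul_right_cancel₀ hI
      linear_combination h
    exact_mod_cast h2
  · intro h
    rw [h]
    push_cast
    ring

theorem t_GAP : S_GAP := by
  intro D ε A b δ hD hε hδ hδ1 hA0 hA hAne hAd hU h1 h2
  have hb := bform D ε A b hD hA hU h1 h2
  have hAE : ∀ x : ℝ, A.eval (E x) ≠ 0 := fun x => hAne _ (E_norm x).le
  have hD0 : (0 : ℝ) < D := by exact_mod_cast hD
  -- the logarithmic derivative
  set w : ℝ → ℂ := fun x => E x * A.derivative.eval (E x) / A.eval (E x) with hw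
  have hwc : Continuous w := by
    refine Continuous.div (E_cont.mul (A.derivative.continuous.comp E_cont)) (A.continuous.comp E_cont) hAE
  have hwn : ∀ x, ‖w x‖ ≤ δ / 4 * D := by
    intro x
    rw [hw]
    simp only
    rw [norm_div, div_le_iff₀ (norm_pos_iff.mpr (hAE x))]
    exact hAd _ (E_norm x)
  set Φ : ℝ → ℂ := fun x => ∫ t in (0 : ℝ)..x, w t with hΦ
  have hΦd : ∀ x, HasDerivAt Φ (w x) x := fun x => (hwc.integral_hasStrictDerivAt 0 x).hasDerivAt
  have hconst : ∀ x, A.eval (E x) = A.eval (E 0) * Complex.exp (Complex.I * Φ x) := by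
    set G : ℝ → ℂ := fun x => A.eval (E x) * Complex.exp (-(Complex.I * Φ x)) with hG
    have hGd : ∀ x, HasDerivAt G 0 x := by
      intro x
      have a1 := poly_deriv A x
      have a2 : HasDerivAt (fun y => Complex.exp (-(Complex.I * Φ y)))
          (Complex.exp (-(Complex.I * Φ x)) * (-(Complex.I * w x))) x :=
        (((hΦd x).const_mul Complex.I).neg).cexp
      have a3 := a1.mul a2
      have a4 : A.derivative.eval (E x) * (E x * Complex.I) * Complex.exp (-(Complex.I * Φ x)) +
          A.eval (E x) * (Complex.exp (-(Complex.I * Φ x)) * (-(Complex.I * w x))) = 0 := by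
        have hne := hAE x
        have a5 : A.eval (E x) * w x = E x * A.derivative.eval (E x) := by
          rw [hw]
          simp only
          field_simp
        linear_combination (-(Complex.I * Complex.exp (-(Complex.I * Φ x)))) * a5
      rw [a4] at a3
      exact a3
    have hGc : ∀ x, G x = G 0 := fun x =>
      is_const_of_deriv_eq_zero (fun y => (hGd y).differentiableAt) (fun y => (hGd y).deriv) x 0
    intro x
    have h3 := hGc x
    rw [hG] at h3
    simp only at h3
    have h4 : Φ 0 = 0 := by rw [hΦ]; simp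
    rw [h4, mul_zero, neg_zero, Complex.exp_zero, mul_one] at h3
    rw [← h3, mul_assoc, ← Complex.exp_add, neg_add_cancel, Complex.exp_zero, mul_one]
  -- the constant
  set c0 : ℂ := ε * (conj (A.eval (E 0)) / A.eval (E 0)) with hc0
  have hc0n : ‖c0‖ = 1 := by
    rw [hc0, norm_mul, norm_div, hε, RCLike.norm_conj, div_self (norm_ne_zero_iff.mpr (hAE 0)), mul_one]
  obtain ⟨φ, hφ⟩ : ∃ φ : ℝ, c0 = Complex.exp (φ * Complex.I) := by
    refine ⟨c0.arg, ?_⟩
    have := Complex.norm_mul_exp_arg_mul_I c0
    rw [hc0n] at this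
    simpa using this.symm
  set g : ℝ → ℝ := fun x => D * x - 2 * (Φ x).re + φ with hg
  have hgd : ∀ x, HasDerivAt g (D - 2 * (w x).re) x := by
    intro x
    have a1 : HasDerivAt (fun y => (Φ y).re) ((w x).re) x :=
      Complex.reCLM.hasFDerivAt.comp_hasDerivAt x (hΦd x)
    have a2 := (((hasDerivAt_id' x).const_mul (D : ℝ)).sub (a1.const_mul 2)).add_const φ
    rw [mul_one] at a2
    exact a2
  have hbg : ∀ x : ℝ, b.eval (E x) = A.eval (E x) * (1 + Complex.exp (g x * Complex.I)) := by
    intro x
    rw [hb _ (E_norm x), mul_add, mul_one]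
    congr 1
    have e1 : conj (A.eval (E x)) = conj (A.eval (E 0)) * Complex.exp (-(Complex.I * conj (Φ x))) := by
      rw [hconst x, map_mul, ← Complex.exp_conj, map_mul, Complex.conj_I, neg_mul]
    have e2 : Complex.exp (g x * Complex.I) = E x ^ D * Complex.exp (-(Complex.I * Φ x)) *
        Complex.exp (-(Complex.I * conj (Φ x))) * c0 := by
      rw [hφ, E, ← Complex.exp_nat_mul, ← Complex.exp_add, ← Complex.exp_add, ← Complex.exp_add]
      congr 1
      have e3 : Φ x + conj (Φ x) = ((2 * (Φ x).re : ℝ) : ℂ) := by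
        rw [Complex.add_conj]
      rw [hg]
      push_cast at e3 ⊢
      linear_combination Complex.I * e3
    rw [e1, e2, hc0, hconst x]
    have e4 : Complex.exp (Complex.I * Φ x) * Complex.exp (-(Complex.I * Φ x)) = 1 := by
      rw [← Complex.exp_add, add_neg_cancel, Complex.exp_zero]
    have h00 : A.eval (E 0) * (conj (A.eval (E 0)) / A.eval (E 0)) = conj (A.eval (E 0)) := by
      have h0 := hAE 0
      field_simp
    linear_combination (-(ε * (E x) ^ D * conj (A.eval (E 0)) *
      Complex.exp (-(Complex.I * conj (Φ x))))) * e4 - (ε * (E x) ^ D *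
      Complex.exp (-(Complex.I * conj (Φ x))) * (Complex.exp (Complex.I * Φ x) *
      Complex.exp (-(Complex.I * Φ x)))) * h00
  -- monotonicity
  have hre : ∀ x, |(w x).re| ≤ δ / 4 * D := fun x => (Complex.abs_re_le_norm _).trans (hwn x)
  have hlow : ∀ x, D * (1 - δ / 2) ≤ D - 2 * (w x).re := by
    intro x
    have := (abs_le.mp (hre x)).2
    nlinarith
  have hupp : ∀ x, D - 2 * (w x).re ≤ D * (1 + δ / 2) := by
    intro x
    have := (abs_le.mp (hre x)).1
    nlinarith
  have hhalf : (D : ℝ) / 2 ≤ D * (1 - δ / 2) := by nlinarith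
  have hgc : Continuous g := continuous_iff_continuousAt.mpr fun x => (hgd x).continuousAt
  have hgm : StrictMono g := by
    apply strictMono_of_deriv_pos
    intro x
    rw [(hgd x).deriv]
    linarith [hlow x]
  have hum : Monotone (fun x => g x - D / 2 * x) := by
    have hud : ∀ x, HasDerivAt (fun x => g x - D / 2 * x) (D - 2 * (w x).re - D / 2) x := by
      intro x
      have := (hgd x).sub ((hasDerivAt_id' x).const_mul ((D : ℝ) / 2))
      rw [mul_one] at this
      exact this
    apply monotone_of_deriv_nonneg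
    · exact fun x => (hud x).differentiableAt
    · intro x
      rw [(hud x).deriv]
      linarith [hlow x]
  have htop : Tendsto g atTop atTop := by
    have h3 : Tendsto (fun x : ℝ => g 0 + D / 2 * x) atTop atTop :=
      tendsto_atTop_add_const_left _ _ (tendsto_id.const_mul_atTop (by positivity))
    refine tendsto_atTop_mono' _ ?_ h3
    filter_upwards [eventually_ge_atTop (0 : ℝ)] with x hx
    have := hum hx
    simp only [mul_zero, sub_zero] at this
    linarith
  have hbot : Tendsto g atBot atBot := by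
    have h3 : Tendsto (fun x : ℝ => g 0 + D / 2 * x) atBot atBot :=
      tendsto_atBot_add_const_left _ _ (tendsto_id.const_mul_atBot (by positivity))
    refine tendsto_atBot_mono' _ ?_ h3
    filter_upwards [eventually_le_atBot (0 : ℝ)] with x hx
    have := hum hx
    simp only [mul_zero, sub_zero] at this
    linarith
  have hsurj : Function.Surjective g := hgc.surjective htop hbot
  choose θ hθ using fun k : ℤ => hsurj (Real.pi + 2 * Real.pi * k)
  have hpi := Real.pi_pos
  refine ⟨θ, ?_, ?_, ?_, ?_⟩
  · intro i j hij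
    rw [← hgm.lt_iff_lt, hθ, hθ]
    have : (i : ℝ) < j := by exact_mod_cast hij
    nlinarith
  · intro x
    show b.eval (E x) = 0 ↔ _
    rw [hbg x, mul_eq_zero, or_iff_right (hAE x), exp_eq_neg_one_iff]
    refine exists_congr fun k => ?_
    rw [← hθ k]
    exact hgm.injective.eq_iff
  · intro k hk
    have hz : 1 + Complex.exp (g (θ k) * Complex.I) = 0 := (exp_eq_neg_one_iff _).mpr ⟨k, hθ k⟩
    have a1 := poly_deriv b (θ k)
    have hk' : b.derivative.eval (E (θ k)) = 0 := hk
    rw [hk', zero_mul] at a1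
    have a2 : HasDerivAt (fun y : ℝ => Complex.exp (g y * Complex.I))
        (Complex.exp (g (θ k) * Complex.I) * (((D - 2 * (w (θ k)).re : ℝ) : ℂ) * Complex.I)) (θ k) :=
      (((hgd (θ k)).ofReal_comp).mul_const Complex.I).cexp
    have a3 := (poly_deriv A (θ k)).mul (a2.const_add 1)
    have a4 : (fun y : ℝ => b.eval (E y)) = fun y : ℝ => A.eval (E y) * (1 + Complex.exp (g y * Complex.I)) :=
      funext hbg
    rw [a4] at a1
    have a5 := a1.unique a3
    rw [hz, mul_zero, zero_add] at a5
    have h5 : (D - 2 * (w (θ k)).re : ℝ) ≠ 0 := by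
      have := hlow (θ k)
      intro h0
      rw [h0] at this
      nlinarith
    have h6 : A.eval (E (θ k)) * (Complex.exp (g (θ k) * Complex.I) *
        (((D - 2 * (w (θ k)).re : ℝ) : ℂ) * Complex.I)) ≠ 0 :=
      mul_ne_zero (hAE _) (mul_ne_zero (Complex.exp_ne_zero _)
        (mul_ne_zero (by exact_mod_cast h5) Complex.I_ne_zero))
    exact h6 a5.symm
  · intro k
    have hlt : θ k < θ (k + 1) := by
      rw [← hgm.lt_iff_lt, hθ, hθ]
      push_cast
      nlinarith
    obtain ⟨ξ, -, hξ⟩ := exists_hasDerivAt_eq_slope g (fun x => D - 2 * (w x).re) hlt hgc.continuousOn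
      (fun x _ => hgd x)
    rw [hθ, hθ] at hξ
    have hd : 0 < θ (k + 1) - θ k := by linarith
    have h7 : (D - 2 * (w ξ).re) * (θ (k + 1) - θ k) = 2 * Real.pi := by
      have : (D - 2 * (w ξ).re) = (2 * Real.pi) / (θ (k + 1) - θ k) := by
        rw [hξ]; push_cast; ring
      rw [this]; field_simp
    set y := (D - 2 * (w ξ).re) with hy
    set u := θ (k + 1) - θ k with hu
    have hy1 := hlow ξ
    have hy2 := hupp ξ
    have hy0 : 0 < y := by linarith
    have h8 : (D : ℝ) / (2 * Real.pi) * u = D / y := by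
      rw [← h7]
      field_simp
    rw [h8, abs_le]
    constructor
    · rw [neg_le_sub_iff_le_add, ← sub_le_iff_le_add, le_div_iff₀ hy0]
      nlinarith
    · rw [sub_le_iff_le_add, div_le_iff₀ hy0]
      nlinarith

end Pool.Agent.Q223.GE
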